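import Pool.Agent.V5helper87.ZM.Stm

/-!
# Project ZM, job KGR: from the bound for `K` to `Grow`
-/

set_option autoImplicit false

open scoped Matrix Pointwise

namespace Pool.Agent.V5helper52.ZM

open Pool.Agent.V5helper87.ZM

lemma bound_pow {G : Type} [Group G] (π : G → ℤ) (hπ : ∀ g h, π (g * h) = π g + π h) (S : Set G)
    (L : ℕ) (hL : ∀ s ∈ S, |π s| ≤ L) (k : ℕ) : ∀ g ∈ S ^ k, |π g| ≤ (k * L : ℕ) := by
  have h1 : π 1 = 0 := by
    have h := hπ 1 1
    rw [mul_one] at h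
    omega
  induction k with
  | zero =>
    intro g hg
    rw [pow_zero] at hg
    have h2 : g = 1 := hg
    rw [h2, h1]
    simp
  | succ k ih =>
    intro g hg
    rw [pow_succ] at hg
    obtain ⟨a, ha, b, hb, rfl⟩ := Set.mem_mul.mp hg
    rw [hπ]
    have h2 := ih a ha
    have h3 := hL b hb
    have h4 := abs_add_le (π a) (π b)
    push_cast at h2 ⊢
    linarith

theorem t_KGR : S_KGR := by
  classical
  intro G _ C π t hπ hC ht A B _ _ fr m n K hK S hS l hl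
  have h1 : π 1 = 0 := by
    have h := hπ 1 1
    rw [mul_one] at h
    omega
  have hinv : ∀ g, π g⁻¹ = - π g := by
    intro g
    have h := hπ g g⁻¹
    rw [mul_inv_cancel, h1] at h
    omega
  -- the bound on `S`
  obtain ⟨L, hL1, hL⟩ : ∃ L : ℕ, 0 < L ∧ ∀ s ∈ S, |π s| ≤ L := by
    refine ⟨∑ s ∈ hS.toFinset, (π s).natAbs + 1, Nat.succ_pos _, fun s hs => ?_⟩
    have h2 : (π s).natAbs ≤ ∑ s ∈ hS.toFinset, (π s).natAbs :=
      Finset.single_le_sum (f := fun s => (π s).natAbs) (fun _ _ => Nat.zero_le _)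
        (hS.mem_toFinset.mpr hs)
    have h3 : |π s| = ((π s).natAbs : ℤ) := (Int.natCast_natAbs (π s)).symm
    rw [h3]
    exact_mod_cast h2.trans (Nat.le_succ _)
  -- the root
  let μ : ℝ := l ^ (((2 * L : ℕ) : ℝ)⁻¹)
  have hμ : μ ^ (2 * L) = l := Real.rpow_inv_natCast_pow (by linarith) (by omega)
  have hμ1 : 1 < μ := Real.one_lt_rpow hl (by positivity)
  obtain ⟨c, hc⟩ := hK μ hμ1
  have hμ0 : 0 < μ := by linarith
  -- the cosets
  have hq : ∀ (q : G ⧸ C) (g : G), cs C g = q → π q.out⁻¹ = π g := by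
    intro q g h
    have h2 : (QuotientGroup.mk q.out : G ⧸ C) = QuotientGroup.mk g⁻¹ := by
      rw [← h]
      exact Quotient.out_eq _
    rw [QuotientGroup.eq, hC, hπ, hinv g] at h2
    omega
  have hinj : Function.Injective fun q : G ⧸ C => π q.out⁻¹ := by
    intro q q' h
    have h2 : q.out⁻¹ * q'.out ∈ C := by
      rw [hC, hπ]
      have h3 := hinv q'.out
      change π q.out⁻¹ = π q'.out⁻¹ at h
      omega
    have h4 := QuotientGroup.eq.mpr h2
    rw [← Quotient.out_eq q, ← Quotient.out_eq q']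
    exact h4
  let c0 : ℝ := 2 / (μ - 1) + 1
  have hc0 : 0 < c0 := by
    have : 0 < μ - 1 := by linarith
    positivity
  have hN : ∀ N : ℕ, (2 * N + 1 : ℝ) ≤ c0 * μ ^ N := by
    intro N
    have h2 : 1 + (N : ℝ) * (μ - 1) ≤ μ ^ N := by
      have h := one_add_mul_le_pow (a := μ - 1) (by linarith) N
      rwa [add_sub_cancel] at h
    have h3 : 0 < μ - 1 := by linarith
    have h4 : (N : ℝ) ≤ μ ^ N / (μ - 1) := by
      rw [le_div_iff₀ h3]
      linarith
    have h5 : (1 : ℝ) ≤ μ ^ N := one_le_pow₀ hμ1.le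
    calc (2 * N + 1 : ℝ) ≤ 2 * (μ ^ N / (μ - 1)) + μ ^ N := by linarith
      _ = c0 * μ ^ N := by
        change _ = (2 / (μ - 1) + 1) * μ ^ N
        ring
  refine ⟨c0 * (m * n * |c|), fun k Q hQ => ?_⟩
  have hQ2 : ∀ q ∈ Q, |π q.out⁻¹| ≤ (k * L : ℕ) := by
    intro q hq'
    obtain ⟨g, hg, h2⟩ := hQ q hq'
    rw [hq q g h2]
    exact bound_pow π hπ S L hL k g hg
  have hcard : (Q.card : ℝ) ≤ 2 * (k * L : ℕ) + 1 := by
    have h2 : Q.card ≤ (Finset.Icc (-((k * L : ℕ) : ℤ)) (k * L : ℕ)).card := by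
      refine Finset.card_le_card_of_injOn (fun q => π q.out⁻¹) (fun q hq' => ?_)
        (fun q _ q' _ h => hinj h)
      exact Finset.mem_coe.mpr (Finset.mem_Icc.mpr (abs_le.mp (hQ2 q hq')))
    rw [Int.card_Icc] at h2
    have h3 : (Q.card : ℤ) ≤ 2 * (k * L : ℕ) + 1 := by omega
    exact_mod_cast h3
  have hterm : ∀ q ∈ Q, ∑ a, ∑ b, ‖fr.β (K q.out⁻¹ a b)‖ ≤ m * n * |c| * μ ^ (k * L) := by
    intro q hq'
    have h2 : ∀ a b, ‖fr.β (K q.out⁻¹ a b)‖ ≤ |c| * μ ^ (k * L) := by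
      intro a b
      refine (hc q.out⁻¹ a b).trans ?_
      have h3 : (π q.out⁻¹).natAbs ≤ k * L := by
        have h4 := hQ2 q hq'
        rw [Int.abs_eq_natAbs] at h4
        exact_mod_cast h4
      exact mul_le_mul (le_abs_self c) (pow_le_pow_right₀ hμ1.le h3) (by positivity)
        (abs_nonneg c)
    calc ∑ a, ∑ b, ‖fr.β (K q.out⁻¹ a b)‖ ≤ ∑ _a : Fin m, ∑ _b : Fin n, |c| * μ ^ (k * L) :=
          Finset.sum_le_sum fun a _ => Finset.sum_le_sum fun b _ => h2 a b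
      _ = m * n * |c| * μ ^ (k * L) := by
        simp only [Finset.sum_const, Finset.card_univ, Fintype.card_fin, nsmul_eq_mul]
        ring
  calc ∑ q ∈ Q, ∑ a, ∑ b, ‖fr.β (K q.out⁻¹ a b)‖
      ≤ ∑ _q ∈ Q, m * n * |c| * μ ^ (k * L) := Finset.sum_le_sum hterm
    _ = Q.card * (m * n * |c| * μ ^ (k * L)) := by rw [Finset.sum_const, nsmul_eq_mul]
    _ ≤ (2 * (k * L : ℕ) + 1) * (m * n * |c| * μ ^ (k * L)) :=
        mul_le_mul_of_nonneg_right hcard (by positivity)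
    _ ≤ (c0 * μ ^ (k * L)) * (m * n * |c| * μ ^ (k * L)) :=
        mul_le_mul_of_nonneg_right (hN (k * L)) (by positivity)
    _ = c0 * (m * n * |c|) * l ^ k := by
        rw [← hμ, ← pow_mul]
        have h2 : 2 * L * k = k * L + k * L := by ring
        rw [h2, pow_add]
        ring

end Pool.Agent.V5helper52.ZM
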